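import Mathlib

/-!
# The exceptional set has small Hausdorff dimension

For every `A > 1` the set of `α ∈ (1, A)` such that `⌊α ^ n⌋` is prime for all large `n` has
Hausdorff dimension at most `log 2 / log (2 A / (A - 1)) < 1`.

A node of level `n` is an interval `[c, d]` with `d ^ n - c ^ n ≤ 1`.  The points `x` of a node for
which `⌊x ^ (n + 1)⌋` is odd are covered by nodes of level `n + 1`: cut out one even unit after the
other.  For large `n` the piece that is cut out has length at least `(d - c) / A`, and the exponent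
`s = log 2 / log (2 A / (A - 1))` is such that a cut does not increase the sum of the `s`-th powers
of the lengths.
-/

namespace Pool.Agent.Results.MP_6db725_nt.SmallDimension

open MeasureTheory Set Filter Topology
open scoped ENNReal NNReal

/-- one cut: `e ≤ A g` and `x + y ≤ e - g` -/
private theorem cut {A s : ℝ} (hA : 1 < A) (hs0 : 0 < s) (hs1 : s < 1)
    (hs : s * Real.log (2 * A / (A - 1)) = Real.log 2) {e g x y : ℝ} (he : e ≤ A * g)
    (hx : 0 ≤ x) (hy : 0 ≤ y) (hxy : x + y ≤ e - g) : x ^ s + y ^ s ≤ e ^ s := by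
  have hA1 : 0 < A - 1 := by linarith
  have he0 : 0 ≤ e := by
    by_contra hlt
    push Not at hlt
    have h1 : e / A ≤ g := by
      rw [div_le_iff₀ (by linarith)]
      linarith
    have h2 : e - g ≤ e * (1 - 1 / A) := by
      have : e * (1 - 1 / A) = e - e / A := by ring
      rw [this]
      linarith
    have h3 : 0 < 1 - 1 / A := by
      have : 1 / A < 1 := by
        rw [div_lt_one (by linarith)]
        exact hA
      linarith
    nlinarith
  have hc := (Real.concaveOn_rpow hs0.le hs1.le).2 (show x ∈ Set.Ici (0 : ℝ) from hx)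
    (show y ∈ Set.Ici (0 : ℝ) from hy) (show (0 : ℝ) ≤ 1 / 2 by norm_num)
    (show (0 : ℝ) ≤ 1 / 2 by norm_num) (by norm_num)
  simp only [smul_eq_mul] at hc
  have h1 : 1 / 2 * x + 1 / 2 * y ≤ (A - 1) / (2 * A) * e := by
    have h2 : (A - 1) / (2 * A) * e = (e - e / A) / 2 := by
      field_simp
    rw [h2]
    have h3 : e / A ≤ g := by
      rw [div_le_iff₀ (by linarith)]
      linarith
    linarith
  have h2 : (1 / 2 * x + 1 / 2 * y) ^ s ≤ ((A - 1) / (2 * A) * e) ^ s :=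
    Real.rpow_le_rpow (by positivity) h1 hs0.le
  have h3 : ((A - 1) / (2 * A) * e) ^ s = 1 / 2 * e ^ s := by
    rw [Real.mul_rpow (by positivity) he0]
    congr 1
    have h4 : (A - 1) / (2 * A) = (2 * A / (A - 1))⁻¹ := by rw [inv_div]
    have h5 : 0 < 2 * A / (A - 1) := by positivity
    rw [h4, Real.inv_rpow h5.le, Real.rpow_def_of_pos h5, mul_comm, hs,
      Real.exp_log (by norm_num)]
    norm_num
  linarith

/-- upper and lower bounds for a difference of powers -/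
private theorem pow_diff {u v : ℝ} (hu : 0 ≤ u) (huv : u ≤ v) (n : ℕ) :
    (n + 1 : ℝ) * u ^ n * (v - u) ≤ v ^ (n + 1) - u ^ (n + 1) ∧
      v ^ (n + 1) - u ^ (n + 1) ≤ (n + 1 : ℝ) * v ^ n * (v - u) := by
  induction n with
  | zero => simp
  | succ n ih =>
    obtain ⟨h1, h2⟩ := ih
    have hv : 0 ≤ v := hu.trans huv
    have e1 : v ^ (n + 1 + 1) - u ^ (n + 1 + 1) =
        v * (v ^ (n + 1) - u ^ (n + 1)) + u ^ (n + 1) * (v - u) := by ring
    have h3 : u ^ (n + 1) ≤ v ^ (n + 1) := pow_le_pow_left₀ hu huv _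
    have h0 : 0 ≤ (n + 1 : ℝ) * u ^ n * (v - u) :=
      mul_nonneg (by positivity) (by linarith)
    rw [e1]
    push_cast
    constructor
    · have h4 : u * ((n + 1 : ℝ) * u ^ n * (v - u)) ≤ v * (v ^ (n + 1) - u ^ (n + 1)) :=
        mul_le_mul huv h1 h0 hv
      have e2 : (n + 1 + 1 : ℝ) * u ^ (n + 1) * (v - u) =
        u * ((n + 1 : ℝ) * u ^ n * (v - u)) + u ^ (n + 1) * (v - u) := by ring
      rw [e2]
      linarith
    · have h4 : v * (v ^ (n + 1) - u ^ (n + 1)) ≤ v * ((n + 1 : ℝ) * v ^ n * (v - u)) :=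
        mul_le_mul_of_nonneg_left h2 hv
      have h5 : u ^ (n + 1) * (v - u) ≤ v ^ (n + 1) * (v - u) :=
        mul_le_mul_of_nonneg_right h3 (by linarith)
      have e2 : (n + 1 + 1 : ℝ) * v ^ (n + 1) * (v - u) =
        v * ((n + 1 : ℝ) * v ^ n * (v - u)) + v ^ (n + 1) * (v - u) := by ring
      rw [e2]
      linarith

/-- roots of natural numbers -/
private theorem root (q n : ℕ) : ∃ y : ℝ, 0 ≤ y ∧ y ^ (n + 1) = q :=
  ⟨(q : ℝ) ^ (((n + 1 : ℕ) : ℝ)⁻¹), by positivity,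
    Real.rpow_inv_natCast_pow (by positivity) (by omega)⟩

/-- the points of `[c, d]` for which `⌊x ^ (n + 1)⌋` is odd are covered by nodes -/
private theorem step {A s : ℝ} (hA : 1 < A) (hs0 : 0 < s) (hs1 : s < 1)
    (hs : s * Real.log (2 * A / (A - 1)) = Real.log 2) {n : ℕ} {d : ℝ} (hd : 0 < d) (m : ℕ) :
    ∀ c : ℝ, 0 ≤ c → c ≤ d → ⌊d ^ (n + 1)⌋₊ ≤ ⌊c ^ (n + 1)⌋₊ + m →
      (n + 1 : ℝ) * d ^ n * (d - c) ≤ A →
      ∃ L : List (ℝ × ℝ), (∀ I ∈ L, c ≤ I.1 ∧ I.1 ≤ I.2 ∧ I.2 ≤ d ∧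
          I.2 ^ (n + 1) - I.1 ^ (n + 1) ≤ 1) ∧
        (∀ x, c ≤ x → x ≤ d → Odd ⌊x ^ (n + 1)⌋₊ → ∃ I ∈ L, I.1 ≤ x ∧ x ≤ I.2) ∧
        (L.map fun I => (I.2 - I.1) ^ s).sum ≤ (d - c) ^ s := by
  induction m using Nat.strong_induction_on with
  | _ m ih =>
  intro c hc hcd hm hA'
  have hmono : ∀ x y : ℝ, 0 ≤ x → 0 ≤ y → (x ^ (n + 1) ≤ y ^ (n + 1) ↔ x ≤ y) :=
    fun x y hx hy => pow_le_pow_iff_left₀ hx hy (by omega)
  have hdn : 0 < (n + 1 : ℝ) * d ^ n := by positivity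
  set q := ⌊c ^ (n + 1)⌋₊ with hq
  have hqc : (q : ℝ) ≤ c ^ (n + 1) := Nat.floor_le (by positivity)
  have hcq : c ^ (n + 1) < q + 1 := Nat.lt_floor_add_one _
  have hdc : 0 ≤ d - c := by linarith
  rcases Nat.even_or_odd q with hqe | hqo
  · -- `q` is even
    rcases lt_or_ge (d ^ (n + 1)) ((q : ℝ) + 1) with h1 | h1
    · refine ⟨[], by simp, ?_, by simpa using Real.rpow_nonneg hdc s⟩
      intro x hx1 hx2 hodd
      exfalso
      have h2 : ⌊x ^ (n + 1)⌋₊ = q := by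
        rw [Nat.floor_eq_iff (pow_nonneg (hc.trans hx1) _)]
        exact ⟨hqc.trans (pow_le_pow_left₀ hc hx1 _),
          (pow_le_pow_left₀ (hc.trans hx1) hx2 _).trans_lt h1⟩
      rw [h2] at hodd
      exact (Nat.not_odd_iff_even.2 hqe) hodd
    · obtain ⟨y, hy0, hy⟩ := root (q + 1) n
      push_cast at hy
      have hcy : c ≤ y := (hmono c y hc hy0).1 (by rw [hy]; exact hcq.le)
      have hyd : y ≤ d := (hmono y d hy0 hd.le).1 (by rw [hy]; exact h1)
      have hfy : ⌊y ^ (n + 1)⌋₊ = q + 1 := by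
        rw [hy]
        exact_mod_cast Nat.floor_natCast (R := ℝ) (q + 1)
      have hfd : q + 1 ≤ ⌊d ^ (n + 1)⌋₊ := by
        apply Nat.le_floor
        push_cast
        exact h1
      obtain ⟨L, hL1, hL2, hL3⟩ := ih (m - 1) (by omega) y hy0 hyd (by omega) (by
        refine le_trans ?_ hA'
        exact mul_le_mul_of_nonneg_left (by linarith) hdn.le)
      refine ⟨L, ?_, ?_, ?_⟩
      · intro I hI
        obtain ⟨a1, a2, a3, a4⟩ := hL1 I hI
        exact ⟨hcy.trans a1, a2, a3, a4⟩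
      · intro x hx1 hx2 hodd
        rcases lt_or_ge x y with h | h
        · exfalso
          have h2 : ⌊x ^ (n + 1)⌋₊ = q := by
            rw [Nat.floor_eq_iff (pow_nonneg (hc.trans hx1) _)]
            refine ⟨hqc.trans (pow_le_pow_left₀ hc hx1 _), ?_⟩
            rw [← hy]
            exact pow_lt_pow_left₀ h (hc.trans hx1) (by omega)
          rw [h2] at hodd
          exact (Nat.not_odd_iff_even.2 hqe) hodd
        · exact hL2 x h hx2 hodd
      · exact hL3.trans (Real.rpow_le_rpow (by linarith) (by linarith) hs0.le)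
  · -- `q` is odd
    rcases le_or_gt (d ^ (n + 1)) ((q : ℝ) + 1) with h1 | h1
    · refine ⟨[(c, d)], ?_, ?_, by simp⟩
      · intro I hI
        rw [List.mem_singleton] at hI
        subst hI
        exact ⟨le_rfl, hcd, le_rfl, by dsimp only; linarith⟩
      · intro x hx1 hx2 _
        exact ⟨(c, d), by simp, hx1, hx2⟩
    · obtain ⟨y, hy0, hy⟩ := root (q + 1) n
      push_cast at hy
      have hcy : c ≤ y := (hmono c y hc hy0).1 (by rw [hy]; exact hcq.le)
      have hyd : y ≤ d := (hmono y d hy0 hd.le).1 (by rw [hy]; exact h1.le)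
      rcases lt_or_ge (d ^ (n + 1)) ((q : ℝ) + 2) with h2 | h2
      · refine ⟨[(c, y)], ?_, ?_, ?_⟩
        · intro I hI
          rw [List.mem_singleton] at hI
          subst hI
          exact ⟨le_rfl, hcy, hyd, by dsimp only; linarith⟩
        · intro x hx1 hx2 hodd
          rcases le_or_gt x y with h | h
          · exact ⟨(c, y), by simp, hx1, h⟩
          · exfalso
            have h3 : ⌊x ^ (n + 1)⌋₊ = q + 1 := by
              rw [Nat.floor_eq_iff (pow_nonneg (hc.trans hx1) _)]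
              push_cast
              refine ⟨?_, ?_⟩
              · rw [← hy]
                exact pow_le_pow_left₀ hy0 h.le _
              · have := pow_le_pow_left₀ (hc.trans hx1) hx2 (n + 1)
                linarith
            rw [h3] at hodd
            exact (Nat.not_odd_iff_even.2 hqo.add_one) hodd
        · simp only [List.map_cons, List.map_nil, List.sum_cons, List.sum_nil, add_zero]
          exact Real.rpow_le_rpow (by linarith) (by linarith) hs0.le
      · obtain ⟨z, hz0, hz⟩ := root (q + 2) n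
        push_cast at hz
        have hyz : y ≤ z := (hmono y z hy0 hz0).1 (by rw [hy, hz]; linarith)
        have hzd : z ≤ d := (hmono z d hz0 hd.le).1 (by rw [hz]; exact h2)
        have hfz : ⌊z ^ (n + 1)⌋₊ = q + 2 := by
          rw [hz]
          exact_mod_cast Nat.floor_natCast (R := ℝ) (q + 2)
        have hfd : q + 2 ≤ ⌊d ^ (n + 1)⌋₊ := by
          apply Nat.le_floor
          push_cast
          exact h2
        obtain ⟨L, hL1, hL2, hL3⟩ := ih (m - 2) (by omega) z hz0 hzd (by omega) (by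
          refine le_trans ?_ hA'
          exact mul_le_mul_of_nonneg_left (by linarith) hdn.le)
        refine ⟨(c, y) :: L, ?_, ?_, ?_⟩
        · intro I hI
          rcases List.mem_cons.1 hI with hI | hI
          · subst hI
            exact ⟨le_rfl, hcy, hyd, by dsimp only; linarith⟩
          · obtain ⟨a1, a2, a3, a4⟩ := hL1 I hI
            exact ⟨(hcy.trans hyz).trans a1, a2, a3, a4⟩
        · intro x hx1 hx2 hodd
          rcases le_or_gt x y with h | h
          · exact ⟨(c, y), by simp, hx1, h⟩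
          · rcases lt_or_ge x z with h' | h'
            · exfalso
              have h3 : ⌊x ^ (n + 1)⌋₊ = q + 1 := by
                rw [Nat.floor_eq_iff (pow_nonneg (hc.trans hx1) _)]
                push_cast
                refine ⟨?_, ?_⟩
                · rw [← hy]
                  exact pow_le_pow_left₀ hy0 h.le _
                · have := pow_lt_pow_left₀ h' (hc.trans hx1) (show n + 1 ≠ 0 by omega)
                  linarith
              rw [h3] at hodd
              exact (Nat.not_odd_iff_even.2 hqo.add_one) hodd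
            · obtain ⟨I, hI, hI'⟩ := hL2 x h' hx2 hodd
              exact ⟨I, List.mem_cons_of_mem _ hI, hI'⟩
        · simp only [List.map_cons, List.sum_cons]
          have hgap : 1 ≤ (n + 1 : ℝ) * d ^ n * (z - y) := by
            have h3 := (pow_diff hy0 hyz n).2
            have h4 : (n + 1 : ℝ) * z ^ n * (z - y) ≤ (n + 1 : ℝ) * d ^ n * (z - y) := by
              refine mul_le_mul_of_nonneg_right ?_ (by linarith)
              exact mul_le_mul_of_nonneg_left (pow_le_pow_left₀ hz0 hzd _) (by positivity)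
            rw [hy, hz] at h3
            linarith
          have hcut := cut hA hs0 hs1 hs (e := d - c) (g := 1 / ((n + 1 : ℝ) * d ^ n))
            (x := y - c) (y := d - z) (by
              rw [mul_one_div, le_div_iff₀ hdn]
              linarith) (by linarith) (by linarith) (by
              have : 1 / ((n + 1 : ℝ) * d ^ n) ≤ z - y := by
                rw [div_le_iff₀ hdn]
                linarith
              linarith)
          linarith

/-- replace every interval of a list by a list -/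
private theorem flat {s : ℝ} {P : ℝ × ℝ → Prop} {R : ℝ → Prop} (L : List (ℝ × ℝ))
    (h : ∀ I ∈ L, ∃ L' : List (ℝ × ℝ), (∀ J ∈ L', P J) ∧
      (∀ x, I.1 ≤ x → x ≤ I.2 → R x → ∃ J ∈ L', J.1 ≤ x ∧ x ≤ J.2) ∧
      (L'.map fun J => (J.2 - J.1) ^ s).sum ≤ (I.2 - I.1) ^ s) :
    ∃ L' : List (ℝ × ℝ), (∀ J ∈ L', P J) ∧
      (∀ x, (∃ I ∈ L, I.1 ≤ x ∧ x ≤ I.2) → R x → ∃ J ∈ L', J.1 ≤ x ∧ x ≤ J.2) ∧
      (L'.map fun J => (J.2 - J.1) ^ s).sum ≤ (L.map fun J => (J.2 - J.1) ^ s).sum := by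
  induction L with
  | nil => exact ⟨[], by simp, by simp, by simp⟩
  | cons I L ih =>
    obtain ⟨L1, a1, a2, a3⟩ := h I (by simp)
    obtain ⟨L2, b1, b2, b3⟩ := ih fun J hJ => h J (List.mem_cons_of_mem _ hJ)
    refine ⟨L1 ++ L2, ?_, ?_, ?_⟩
    · intro J hJ
      rcases List.mem_append.1 hJ with hJ | hJ
      · exact a1 J hJ
      · exact b1 J hJ
    · rintro x ⟨K, hK, hK1, hK2⟩ hR
      rcases List.mem_cons.1 hK with rfl | hK
      · obtain ⟨J, hJ, hJ'⟩ := a2 x hK1 hK2 hR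
        exact ⟨J, List.mem_append_left _ hJ, hJ'⟩
      · obtain ⟨J, hJ, hJ'⟩ := b2 x ⟨K, hK, hK1, hK2⟩ hR
        exact ⟨J, List.mem_append_right _ hJ, hJ'⟩
    · simp only [List.map_append, List.sum_append, List.map_cons, List.sum_cons]
      linarith

/-- `[a, b]` is good from level `n` on: nodes are not much longer than the cuts -/
private def Good (A a b : ℝ) (n : ℕ) : Prop :=
  ∀ k ≥ n, ∀ c d : ℝ, a ≤ c → c ≤ d → d ≤ b → d ^ k - c ^ k ≤ 1 →
    (k + 1 : ℝ) * d ^ k * (d - c) ≤ A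

/-- covers of a node of level `n` by nodes of level `n + k` -/
private theorem iter {A s : ℝ} (hA : 1 < A) (hs0 : 0 < s) (hs1 : s < 1)
    (hs : s * Real.log (2 * A / (A - 1)) = Real.log 2) {a b : ℝ} (ha : 1 < a) (k : ℕ) :
    ∀ n, Good A a b n → ∀ c d : ℝ, a ≤ c → c ≤ d → d ≤ b → d ^ n - c ^ n ≤ 1 →
      ∃ L : List (ℝ × ℝ), (∀ I ∈ L, a ≤ I.1 ∧ I.1 ≤ I.2 ∧ I.2 ≤ b ∧
          I.2 ^ (n + k) - I.1 ^ (n + k) ≤ 1) ∧
        (∀ x, c ≤ x → x ≤ d → (∀ j, n < j → Odd ⌊x ^ j⌋₊) → ∃ I ∈ L, I.1 ≤ x ∧ x ≤ I.2) ∧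
        (L.map fun I => (I.2 - I.1) ^ s).sum ≤ (d - c) ^ s := by
  induction k with
  | zero =>
    intro n _ c d hac hcd hdb hn
    refine ⟨[(c, d)], ?_, ?_, by simp⟩
    · intro I hI
      rw [List.mem_singleton] at hI
      subst hI
      exact ⟨hac, hcd, hdb, hn⟩
    · intro x hx1 hx2 _
      exact ⟨(c, d), by simp, hx1, hx2⟩
  | succ k ih =>
    intro n hG c d hac hcd hdb hn
    obtain ⟨L, hL1, hL2, hL3⟩ := step hA hs0 hs1 hs (n := n) (d := d) (by linarith)
      ⌊d ^ (n + 1)⌋₊ c (by linarith) hcd (by omega) (hG n le_rfl c d hac hcd hdb hn)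
    obtain ⟨L', h1, h2, h3⟩ := flat (s := s)
      (P := fun I => a ≤ I.1 ∧ I.1 ≤ I.2 ∧ I.2 ≤ b ∧
          I.2 ^ (n + (k + 1)) - I.1 ^ (n + (k + 1)) ≤ 1)
      (R := fun x => ∀ j, n + 1 < j → Odd ⌊x ^ j⌋₊) L (by
        intro I hI
        obtain ⟨e1, e2, e3, e4⟩ := hL1 I hI
        obtain ⟨L', f1, f2, f3⟩ := ih (n + 1) (fun j hj => hG j (by omega)) I.1 I.2
          (hac.trans e1) e2 (e3.trans hdb) e4
        refine ⟨L', ?_, f2, f3⟩
        intro J hJ
        have := f1 J hJ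
        rw [show n + 1 + k = n + (k + 1) by ring] at this
        exact this)
    refine ⟨L', h1, ?_, h3.trans hL3⟩
    intro x hx1 hx2 hodd
    exact h2 x (hL2 x hx1 hx2 (hodd (n + 1) (by omega))) fun j hj => hodd j (by omega)

/-- `Good` holds from some level on -/
private theorem good {A a b : ℝ} (ha : 1 < a) (hb : b < A) : ∃ n, Good A a b n := by
  have h1 : Tendsto (fun k : ℕ => ((1 : ℝ) + 1 / ((k : ℝ) + 1)) * (b + (1 / a) ^ k)) atTop
      (𝓝 ((1 + 0) * (b + 0))) := by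
    refine Tendsto.mul (tendsto_const_nhds.add ?_) (tendsto_const_nhds.add ?_)
    · exact tendsto_one_div_add_atTop_nhds_zero_nat
    · refine tendsto_pow_atTop_nhds_zero_of_lt_one (by positivity) ?_
      rw [div_lt_one (by linarith)]
      exact ha
  have h2 : ∀ᶠ k : ℕ in atTop, ((1 : ℝ) + 1 / ((k : ℝ) + 1)) * (b + (1 / a) ^ k) < A :=
    h1.eventually_lt_const (by simpa using hb)
  obtain ⟨K, hK⟩ := eventually_atTop.1 h2
  refine ⟨K + 1, ?_⟩
  intro k hk c d hac hcd hdb hn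
  obtain ⟨j, rfl⟩ : ∃ j, k = j + 1 := ⟨k - 1, by omega⟩
  have hj := hK j (by omega)
  have hc0 : 0 < c := by linarith
  have hjp : (0 : ℝ) < (j : ℝ) + 1 := by positivity
  have h3 := (pow_diff hc0.le hcd j).1
  have h4 : (j + 1 : ℝ) * c ^ j * (d - c) ≤ 1 := h3.trans hn
  have h5 : d ^ (j + 1) ≤ (b + (1 / a) ^ j) * c ^ j := by
    have e1 : (1 : ℝ) ≤ (1 / a) ^ j * c ^ j := by
      rw [← mul_pow]
      apply one_le_pow₀
      rw [one_div, inv_mul_eq_div, one_le_div (by linarith)]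
      exact hac
    have e2 : c ^ (j + 1) ≤ b * c ^ j := by
      rw [pow_succ, mul_comm]
      exact mul_le_mul_of_nonneg_right (hcd.trans hdb) (by positivity)
    have e3 : (b + (1 / a) ^ j) * c ^ j = b * c ^ j + (1 / a) ^ j * c ^ j := by ring
    rw [e3]
    linarith
  have hdc : 0 ≤ d - c := by linarith
  have hcj : 0 < c ^ j := by positivity
  have h6 : ((j : ℝ) + 1 + 1) * (b + (1 / a) ^ j) ≤ A * ((j : ℝ) + 1) := by
    have e1 : ((j : ℝ) + 1 + 1) * (b + (1 / a) ^ j) =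
        (((1 : ℝ) + 1 / ((j : ℝ) + 1)) * (b + (1 / a) ^ j)) * ((j : ℝ) + 1) := by
      field_simp
    rw [e1]
    exact mul_le_mul_of_nonneg_right hj.le hjp.le
  push_cast
  calc ((j : ℝ) + 1 + 1) * d ^ (j + 1) * (d - c)
      ≤ ((j : ℝ) + 1 + 1) * ((b + (1 / a) ^ j) * c ^ j) * (d - c) := by
        refine mul_le_mul_of_nonneg_right ?_ hdc
        exact mul_le_mul_of_nonneg_left h5 (by positivity)
    _ = ((j : ℝ) + 1 + 1) * (b + (1 / a) ^ j) * (c ^ j * (d - c)) := by ring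
    _ ≤ A * ((j : ℝ) + 1) * (c ^ j * (d - c)) :=
        mul_le_mul_of_nonneg_right h6 (mul_nonneg hcj.le hdc)
    _ = A * ((j + 1 : ℝ) * c ^ j * (d - c)) := by ring
    _ ≤ A * 1 := by
        refine mul_le_mul_of_nonneg_left h4 ?_
        linarith
    _ = A := mul_one A

/-- the length of a node -/
private theorem small {a b : ℝ} (ha : 1 < a) {n k : ℕ} (hk : 1 ≤ k) {I : ℝ × ℝ}
    (h : a ≤ I.1 ∧ I.1 ≤ I.2 ∧ I.2 ≤ b ∧ I.2 ^ (n + k) - I.1 ^ (n + k) ≤ 1) :
    I.2 - I.1 ≤ a * (1 / a) ^ k := by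
  obtain ⟨e1, e2, -, e4⟩ := h
  obtain ⟨j, rfl⟩ : ∃ j, k = j + 1 := ⟨k - 1, by omega⟩
  have h1 := (pow_diff (by linarith) e2 (n + j)).1
  rw [show n + (j + 1) = n + j + 1 by ring] at e4
  have h2 : a ^ j ≤ ((n + j : ℕ) + 1 : ℝ) * I.1 ^ (n + j) := by
    have h3 : a ^ j ≤ I.1 ^ (n + j) :=
      (pow_le_pow_right₀ ha.le (by omega)).trans (pow_le_pow_left₀ (by linarith) e1 (n + j))
    have h4 : 0 ≤ ((n + j : ℕ) : ℝ) * I.1 ^ (n + j) :=
      mul_nonneg (Nat.cast_nonneg _) (pow_nonneg (by linarith) _)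
    have h5 : ((n + j : ℕ) + 1 : ℝ) * I.1 ^ (n + j) =
        ((n + j : ℕ) : ℝ) * I.1 ^ (n + j) + I.1 ^ (n + j) := by ring
    rw [h5]
    linarith
  have h3 : a ^ j * (I.2 - I.1) ≤ 1 :=
    (mul_le_mul_of_nonneg_right h2 (by linarith)).trans (h1.trans e4)
  have h4 : a * (1 / a) ^ (j + 1) = 1 / a ^ j := by
    rw [div_pow, one_pow, pow_succ]
    field_simp
  rw [h4, le_div_iff₀ (by positivity)]
  linarith

/-- the points of a node have dimension at most `s` -/
private theorem node {A s : ℝ} (hA : 1 < A) (hs0 : 0 < s) (hs1 : s < 1)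
    (hs : s * Real.log (2 * A / (A - 1)) = Real.log 2) {a b : ℝ} (ha : 1 < a) {n : ℕ}
    (hG : Good A a b n) (hab : a ≤ b) (hn : b ^ n - a ^ n ≤ 1) :
    dimH {x : ℝ | a ≤ x ∧ x ≤ b ∧ ∀ j, n < j → Odd ⌊x ^ j⌋₊} ≤ ENNReal.ofReal s := by
  have key := fun k => iter hA hs0 hs1 hs ha k n hG a b le_rfl hab le_rfl hn
  choose L hL1 hL2 hL3 using key
  have hsum : ∀ k, (∑ i : Fin (L k).length,
      Metric.ediam (Icc ((L k)[i]).1 ((L k)[i]).2) ^ s) ≤ ENNReal.ofReal ((b - a) ^ s) := by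
    intro k
    have h1 : ∀ i : Fin (L k).length, Metric.ediam (Icc ((L k)[i]).1 ((L k)[i]).2) ^ s =
        ENNReal.ofReal ((((L k)[i]).2 - ((L k)[i]).1) ^ s) := by
      intro i
      have h2 := (hL1 k _ (List.getElem_mem i.2)).2.1
      rw [Real.ediam_Icc, ENNReal.ofReal_rpow_of_nonneg (by
        have : ((L k)[i]).1 ≤ ((L k)[i]).2 := h2
        linarith) hs0.le]
    rw [Finset.sum_congr rfl fun i _ => h1 i, ← ENNReal.ofReal_sum_of_nonneg]
    · apply ENNReal.ofReal_le_ofReal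
      refine le_trans (le_of_eq ?_) (hL3 k)
      have h3 := Fin.sum_univ_getElem ((L k).map fun I => (I.2 - I.1) ^ s)
      rw [← h3]
      refine Fintype.sum_equiv (finCongr (by simp)) _ _ ?_
      intro i
      simp
    · intro i _
      have h2 := (hL1 k _ (List.getElem_mem i.2)).2.1
      have : ((L k)[i]).1 ≤ ((L k)[i]).2 := h2
      exact Real.rpow_nonneg (by linarith) s
  have hr : Tendsto (fun k : ℕ => ENNReal.ofReal (a * (1 / a) ^ k)) atTop (𝓝 0) := by
    have h1 : Tendsto (fun k : ℕ => (1 / a) ^ k) atTop (𝓝 0) := by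
      refine tendsto_pow_atTop_nhds_zero_of_lt_one (by positivity) ?_
      rw [div_lt_one (by linarith)]
      exact ha
    have h2 := h1.const_mul a
    rw [mul_zero] at h2
    have h3 := ENNReal.tendsto_ofReal h2
    rwa [ENNReal.ofReal_zero] at h3
  have hH := MeasureTheory.Measure.hausdorffMeasure_le_liminf_sum s
    {x : ℝ | a ≤ x ∧ x ≤ b ∧ ∀ j, n < j → Odd ⌊x ^ j⌋₊}
    (l := atTop) (fun k : ℕ => ENNReal.ofReal (a * (1 / a) ^ k)) hr
    (fun k (i : Fin (L k).length) => Icc ((L k)[i]).1 ((L k)[i]).2) (by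
      filter_upwards [eventually_ge_atTop 1] with k hk i
      rw [Real.ediam_Icc]
      apply ENNReal.ofReal_le_ofReal
      exact small ha hk (hL1 k _ (List.getElem_mem i.2))) (by
      filter_upwards with k x hx
      obtain ⟨I, hI, hI1, hI2⟩ := hL2 k x hx.1 hx.2.1 hx.2.2
      obtain ⟨i, hi, hi'⟩ := List.getElem_of_mem hI
      rw [mem_iUnion]
      refine ⟨⟨i, hi⟩, ?_⟩
      simp only [Fin.getElem_fin, mem_Icc]
      rw [hi']
      exact ⟨hI1, hI2⟩)
  have hfin : μH[s] {x : ℝ | a ≤ x ∧ x ≤ b ∧ ∀ j, n < j → Odd ⌊x ^ j⌋₊} ≠ ∞ := by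
    refine ne_top_of_le_ne_top ENNReal.ofReal_ne_top (hH.trans ?_) (b := ENNReal.ofReal ((b - a) ^ s))
    refine liminf_le_of_frequently_le' ?_
    exact (Eventually.of_forall hsum).frequently
  have h := dimH_le_of_hausdorffMeasure_ne_top (d := ⟨s, hs0.le⟩) hfin
  refine h.trans (le_of_eq ?_)
  rw [ENNReal.ofReal, Real.toNNReal_of_nonneg hs0.le]
  rfl

/-- For every `A > 1` the set of real numbers `α` with `1 < α < A` such that `⌊α ^ n⌋` is prime for
all large `n` has Hausdorff dimension at most `log 2 / log (2 A / (A - 1))`, which is less than `1`. -/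
theorem result (A : ℝ) (hA : 1 < A) :
    dimH {α : ℝ | 1 < α ∧ α < A ∧ ∃ N : ℕ, ∀ n ≥ N, Nat.Prime ⌊α ^ n⌋₊} ≤
        ENNReal.ofReal (Real.log 2 / Real.log (2 * A / (A - 1))) ∧
      Real.log 2 / Real.log (2 * A / (A - 1)) < 1 := by
  have hA1 : 0 < A - 1 := by linarith
  have h2 : (2 : ℝ) < 2 * A / (A - 1) := by
    rw [lt_div_iff₀ hA1]
    linarith
  have hlog2 : 0 < Real.log 2 := Real.log_pos (by norm_num)
  have hlog : Real.log 2 < Real.log (2 * A / (A - 1)) := Real.log_lt_log (by norm_num) h2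
  have hlog0 : 0 < Real.log (2 * A / (A - 1)) := hlog2.trans hlog
  set s := Real.log 2 / Real.log (2 * A / (A - 1)) with hsdef
  have hs0 : 0 < s := div_pos hlog2 hlog0
  have hs1 : s < 1 := by
    rw [hsdef, div_lt_one hlog0]
    exact hlog
  have hs : s * Real.log (2 * A / (A - 1)) = Real.log 2 := div_mul_cancel₀ _ hlog0.ne'
  refine ⟨?_, hs1⟩
  have hsub : {α : ℝ | 1 < α ∧ α < A ∧ ∃ N : ℕ, ∀ n ≥ N, Nat.Prime ⌊α ^ n⌋₊} ⊆
      ⋃ i : ℕ × ℚ × ℚ, {x : ℝ | (1 < (i.2.1 : ℝ) ∧ Good A i.2.1 i.2.2 i.1 ∧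
        (i.2.1 : ℝ) ≤ i.2.2 ∧ (i.2.2 : ℝ) ^ i.1 - (i.2.1 : ℝ) ^ i.1 ≤ 1) ∧
        (i.2.1 : ℝ) ≤ x ∧ x ≤ i.2.2 ∧ ∀ j, i.1 < j → Odd ⌊x ^ j⌋₊} := by
    rintro x ⟨hx1, hxA, N, hN⟩
    obtain ⟨a, ha1, hax⟩ := exists_between hx1
    obtain ⟨b, hxb, hbA⟩ := exists_between hxA
    obtain ⟨n0, hn0⟩ := good ha1 hbA
    have htop : Tendsto (fun k : ℕ => x ^ k) atTop atTop := tendsto_pow_atTop_atTop_of_one_lt hx1
    obtain ⟨n1, hn1⟩ := eventually_atTop.1 (htop.eventually_ge_atTop 3)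
    set n := n0 + N + n1 with hn
    have hcont : Continuous fun y : ℝ => y ^ n := continuous_pow n
    have hev1 : ∀ᶠ y in 𝓝 x, x ^ n - 1 / 2 < y ^ n ∧ y ^ n < x ^ n + 1 / 2 := by
      have h3 : ∀ᶠ z in 𝓝 (x ^ n), x ^ n - 1 / 2 < z ∧ z < x ^ n + 1 / 2 :=
        (lt_mem_nhds (by linarith)).and (gt_mem_nhds (by linarith))
      exact hcont.continuousAt.eventually h3
    obtain ⟨l, u, ⟨hlx, hxu⟩, hlu⟩ := mem_nhds_iff_exists_Ioo_subset.1 hev1
    obtain ⟨c, hc1, hc2⟩ := exists_rat_btwn (show max a l < x from max_lt hax hlx)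
    obtain ⟨d, hd1, hd2⟩ := exists_rat_btwn (show x < min b u from lt_min hxb hxu)
    have hac : a < c := (le_max_left _ _).trans_lt hc1
    have hlc : l < c := (le_max_right _ _).trans_lt hc1
    have hdb : (d : ℝ) < b := hd2.trans_le (min_le_left _ _)
    have hdu : (d : ℝ) < u := hd2.trans_le (min_le_right _ _)
    have hcn := hlu ⟨hlc, hc2.trans hxu⟩
    have hdn := hlu ⟨hlx.trans hd1, hdu⟩
    have hcn : x ^ n - 1 / 2 < (c : ℝ) ^ n ∧ (c : ℝ) ^ n < x ^ n + 1 / 2 := hcn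
    have hdn : x ^ n - 1 / 2 < (d : ℝ) ^ n ∧ (d : ℝ) ^ n < x ^ n + 1 / 2 := hdn
    rw [mem_iUnion]
    refine ⟨(n, c, d), ⟨⟨by linarith, ?_, by linarith, ?_⟩, hc2.le, hd1.le, ?_⟩⟩
    · intro k hk c' d' h3 h4 h5 h6
      dsimp only at hk h3 h5
      exact hn0 k (by omega) c' d' (by linarith) h4 (by linarith) h6
    · dsimp only
      linarith [hcn.1, hdn.2]
    · intro j hj
      dsimp only at hj
      have hp := hN j (by omega)
      rcases hp.eq_two_or_odd' with h3 | h3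
      · exfalso
        have h4 := hn1 j (by omega)
        have h5 : 3 ≤ ⌊x ^ j⌋₊ := Nat.le_floor (by exact_mod_cast h4)
        omega
      · exact h3
  refine (dimH_mono hsub).trans ?_
  rw [dimH_iUnion]
  refine iSup_le ?_
  rintro ⟨n, a, b⟩
  by_cases hc : 1 < (a : ℝ) ∧ Good A a b n ∧ (a : ℝ) ≤ b ∧ (b : ℝ) ^ n - (a : ℝ) ^ n ≤ 1
  · refine (dimH_mono ?_).trans (node hA hs0 hs1 hs hc.1 hc.2.1 hc.2.2.1 hc.2.2.2)
    rintro x ⟨-, hx⟩
    exact hx
  · have : {x : ℝ | (1 < (((n, a, b) : ℕ × ℚ × ℚ).2.1 : ℝ) ∧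
        Good A ((n, a, b) : ℕ × ℚ × ℚ).2.1 ((n, a, b) : ℕ × ℚ × ℚ).2.2 (n, a, b).1 ∧
        (((n, a, b) : ℕ × ℚ × ℚ).2.1 : ℝ) ≤ ((n, a, b) : ℕ × ℚ × ℚ).2.2 ∧
        (((n, a, b) : ℕ × ℚ × ℚ).2.2 : ℝ) ^ (n, a, b).1 -
          (((n, a, b) : ℕ × ℚ × ℚ).2.1 : ℝ) ^ (n, a, b).1 ≤ 1) ∧
        (((n, a, b) : ℕ × ℚ × ℚ).2.1 : ℝ) ≤ x ∧ x ≤ ((n, a, b) : ℕ × ℚ × ℚ).2.2 ∧
        ∀ j, (n, a, b).1 < j → Odd ⌊x ^ j⌋₊} = ∅ := by
      ext x
      rw [mem_empty_iff_false, iff_false]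
      rintro ⟨h3, -⟩
      exact hc h3
    rw [this, dimH_empty]
    exact bot_le

end Pool.Agent.Results.MP_6db725_nt.SmallDimension
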